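import Pool.Agent.Y920.HN.Stm

set_option autoImplicit false

/-! HN-NU: the convolution with a Haar measure gives a two-sided witness. -/

open MeasureTheory Filter Topology

namespace Pool.Agent.Y465.HN

open Pool.Agent.Y920.HN

theorem t_NU : S_NU := by
  intro G _ _ _ _ _ _ N K h μ C B hN hC hB hCN hKN hh hμp hK hμC hr hc hk hμ
  have hmul : Measurable (fun p : G × G => p.1 * p.2) :=
    (continuous_fst.mul continuous_snd).measurable
  have hKae : ∀ᵐ z ∂h, z ∈ (K : Set G) := by
    rw [ae_iff]
    exact hK
  have hCae : ∀ᵐ y ∂μ, y ∈ C := by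
    rw [ae_iff]
    exact hμC
  refine ⟨(h.prod μ).map (fun p => p.1 * p.2), Measure.isProbabilityMeasure_map hmul.aemeasurable,
    ?_, ?_⟩
  · rw [Measure.map_apply hmul hN.compl, Measure.prod_apply (hmul hN.compl)]
    refine (lintegral_congr_ae ?_).trans (lintegral_zero (μ := h))
    filter_upwards [hKae] with z hz
    refine measure_mono_null ?_ hμC
    intro y hy hyC
    exact hy (N.mul_mem (hKN hz) (hCN hyC))
  · intro g x hx
    have hS : MeasurableSet {y : G | g * y * x ∈ B} :=
      (((continuous_const.mul continuous_id).mul continuous_const :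
        Continuous fun y : G => g * y * x)).measurable hB
    have hS2 : MeasurableSet {p : G × G | g * x * p.1 * p.2 ∈ B} :=
      (((continuous_const.mul continuous_fst).mul continuous_snd :
        Continuous fun p : G × G => g * x * p.1 * p.2)).measurable hB
    rw [Measure.map_apply hmul hS, Measure.prod_apply_symm (hmul hS)]
    have e : ∀ᵐ y ∂μ, h ((fun z => (z, y)) ⁻¹' ((fun p : G × G => p.1 * p.2) ⁻¹'
        {y : G | g * y * x ∈ B})) =
        h ((fun z => (z, y)) ⁻¹' {p : G × G | g * x * p.1 * p.2 ∈ B}) := by
      filter_upwards [hCae] with y hy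
      set c : G := x⁻¹ * y * x * y⁻¹ with hcdef
      have hcK : c ∈ K := by
        have h1 := hk x⁻¹ (N.inv_mem hx) y hy
        rwa [inv_inv] at h1
      have hE : MeasurableSet {w : G | g * x * w * y ∈ B} :=
        (((continuous_const.mul continuous_id).mul continuous_const :
          Continuous fun w : G => g * x * w * y)).measurable hB
      have hE' : MeasurableSet {w : G | w * c ∈ {w : G | g * x * w * y ∈ B}} :=
        ((continuous_id.mul continuous_const : Continuous fun w : G => w * c)).measurable hE
      have h2 := hc x⁻¹ (N.inv_mem hx) _ hE'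
      have h3 := hr c hcK _ hE
      have h4 : ((fun z => (z, y)) ⁻¹' ((fun p : G × G => p.1 * p.2) ⁻¹'
          {y : G | g * y * x ∈ B})) =
          {y_1 : G | x⁻¹ * y_1 * x⁻¹⁻¹ ∈ {w : G | w * c ∈ {w : G | g * x * w * y ∈ B}}} := by
        ext z
        simp only [Set.mem_preimage, Set.mem_ofPred_eq]
        have h5 : g * (z * y) * x = g * x * (x⁻¹ * z * x⁻¹⁻¹ * c) * y := by
          rw [hcdef]
          group
        rw [h5]
      rw [h4, h2, h3]
      rfl
    rw [lintegral_congr_ae e, ← Measure.prod_apply_symm hS2, Measure.prod_apply hS2]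
    refine (lintegral_congr fun z => ?_).trans (lintegral_zero (μ := h))
    exact hμ (g * x * z)

end Pool.Agent.Y465.HN
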